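import Pool.Agent.V11258.UR.Red

set_option autoImplicit false

/-!
# A closed subset of Baire space which is not Muchnik equivalent to a closed subset of Cantor space

For `h : ℕ → ℕ` let `P h` be the closed set of all `f` with `h ≤ f`. By a forcing argument (Hechler
forcing) there is a countable set `C` of binary sequences such that every closed `Q ⊆ 2^ω` with the
property that all elements of `P h` compute an element of `Q` has an element in `C`. Here `C` does
not depend on `h` and `Q`. Therefore `P h` is not Muchnik equivalent to `Q`, if `h` is not dominated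
by a function computable from an element of `C`.
-/

namespace Pool.Agent.L7h72.Muchnik

open Encodable Nat.Partrec
open Pool.Agent.V11258.UR

/-- the bits of `y` as a real -/
def bt (y : ℕ → Bool) : ℕ → ℕ := fun n => (y n).toNat

/-- the functions which agree with `s` below `k` and dominate `g` from `k` on -/
def Box (k : ℕ) (s g : ℕ → ℕ) : Set (ℕ → ℕ) :=
  {f | (∀ n, n < k → f n = s n) ∧ ∀ n, k ≤ n → g n ≤ f n}

/-- the program `c` with the oracle `f` gives the bits `y 0, ..., y (n-1)` -/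
def Out (c : Code) (f : ℕ → ℕ) (n : ℕ) (y : ℕ → Bool) : Prop :=
  ∀ m, m < n → ∃ k, (y m).toNat ∈ c.eval (encode (m, pre f k))

theorem pre_congr {f g : ℕ → ℕ} {k : ℕ} (h : ∀ n, n < k → f n = g n) : pre f k = pre g k := by
  unfold pre
  apply List.map_congr_left
  intro a ha
  exact h a (List.mem_range.1 ha)

theorem Out.congr {c : Code} {f : ℕ → ℕ} {n : ℕ} {y z : ℕ → Bool} (h : Out c f n y)
    (hyz : ∀ m, m < n → y m = z m) : Out c f n z := by
  intro m hm
  rw [← hyz m hm]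
  exact h m hm

theorem Out.of_red {c : Code} {f : ℕ → ℕ} {y : ℕ → Bool} (h : Red c f (bt y)) (n : ℕ) :
    Out c f n y := fun m _ => h.1 m

theorem Out.eq_of_red {c : Code} {f : ℕ → ℕ} {y z : ℕ → Bool} {n : ℕ} (h : Red c f (bt y))
    (hz : Out c f n z) : ∀ m, m < n → z m = y m := by
  intro m hm
  obtain ⟨k, hk⟩ := hz m hm
  have := h.2 m k _ hk
  have h2 : (z m).toNat = (y m).toNat := this
  revert h2
  cases z m <;> cases y m <;> simp

/-- finite use -/
theorem Out.use {c : Code} {f : ℕ → ℕ} {n : ℕ} {y : ℕ → Bool} (h : Out c f n y) :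
    ∃ K, ∀ f' : ℕ → ℕ, (∀ m, m < K → f' m = f m) → Out c f' n y := by
  induction n with
  | zero => exact ⟨0, fun f' _ m hm => absurd hm (Nat.not_lt_zero m)⟩
  | succ n ih =>
    obtain ⟨K, hK⟩ := ih (fun m hm => h m (Nat.lt_succ_of_lt hm))
    obtain ⟨k, hk⟩ := h n (Nat.lt_succ_self n)
    refine ⟨max K k, fun f' hf' m hm => ?_⟩
    rcases Nat.lt_succ_iff_lt_or_eq.1 hm with h1 | h1
    · exact hK f' (fun j hj => hf' j (lt_of_lt_of_le hj (le_max_left _ _))) m h1
    · subst h1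
      refine ⟨k, ?_⟩
      rw [pre_congr (f := f') (g := f) (k := k)
        (fun j hj => hf' j (lt_of_lt_of_le hj (le_max_right _ _)))]
      exact hk

/-- the tree of the favoured values -/
def Fav (c : Code) (k : ℕ) (s : ℕ → ℕ) (n : ℕ) (y : ℕ → Bool) : Prop :=
  ∀ g : ℕ → ℕ, ∃ f ∈ Box k s g, Out c f n y

theorem Fav.congr {c : Code} {k : ℕ} {s : ℕ → ℕ} {n : ℕ} {y z : ℕ → Bool} (h : Fav c k s n y)
    (hyz : ∀ m, m < n → y m = z m) : Fav c k s n z := by
  intro g
  obtain ⟨f, hf, ho⟩ := h g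
  exact ⟨f, hf, ho.congr hyz⟩

theorem Fav.mono {c : Code} {k : ℕ} {s : ℕ → ℕ} {n m : ℕ} {y : ℕ → Bool} (h : Fav c k s n y)
    (hm : m ≤ n) : Fav c k s m y := by
  intro g
  obtain ⟨f, hf, ho⟩ := h g
  exact ⟨f, hf, fun j hj => ho j (lt_of_lt_of_le hj hm)⟩

theorem Fav.stem {c : Code} {k : ℕ} {s s' : ℕ → ℕ} {n : ℕ} {y : ℕ → Bool} (h : Fav c k s n y)
    (hs : ∀ m, m < k → s m = s' m) : Fav c k s' n y := by
  intro g
  obtain ⟨f, hf, ho⟩ := h g
  exact ⟨f, ⟨fun j hj => (hf.1 j hj).trans (hs j hj), hf.2⟩, ho⟩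

/-- the stem given by a list -/
def ofL (l : List ℕ) : ℕ → ℕ := fun n => l.getD n 0

theorem ofL_pre (s : ℕ → ℕ) (k m : ℕ) (h : m < k) : ofL (pre s k) m = s m :=
  pre_getD s k m 0 h

open Classical in
/-- the countable set `C` -/
noncomputable def cand (c : Code) (l : List ℕ) : ℕ → Bool :=
  if h : ∃ y : ℕ → Bool, ∀ n, Fav c l.length (ofL l) n y then Classical.choose h else fun _ => false

theorem cand_spec {c : Code} {l : List ℕ}
    (h : ∃ y : ℕ → Bool, ∀ n, Fav c l.length (ofL l) n y) :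
    ∀ n, Fav c l.length (ofL l) n (cand c l) := by
  unfold cand
  rw [dif_pos h]
  exact Classical.choose_spec h

/-- compactness -/
theorem exists_path {c : Code} {k : ℕ} {s : ℕ → ℕ} (h : ∀ n, ∃ y, Fav c k s n y) :
    ∃ y : ℕ → Bool, ∀ n, Fav c k s n y := by
  have hcl : ∀ n, IsClosed {y : ℕ → Bool | Fav c k s n y} := by
    intro n
    have : {y : ℕ → Bool | Fav c k s n y} =
        (fun (y : ℕ → Bool) (i : Fin n) => y i) ⁻¹'
          {u : Fin n → Bool | ∃ y : ℕ → Bool, Fav c k s n y ∧ ∀ i : Fin n, y i = u i} := by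
      ext y
      constructor
      · intro hy
        exact ⟨y, hy, fun i => rfl⟩
      · rintro ⟨z, hz, hzy⟩
        exact hz.congr (fun m hm => hzy ⟨m, hm⟩)
    rw [this]
    apply IsClosed.preimage
    · fun_prop
    · exact isClosed_discrete _
  have hne := IsCompact.nonempty_iInter_of_sequence_nonempty_isCompact_isClosed
    (fun n => {y : ℕ → Bool | Fav c k s n y})
    (fun n y hy => Fav.mono hy (Nat.le_succ n))
    h (hcl 0).isCompact hcl
  obtain ⟨y, hy⟩ := hne
  exact ⟨y, fun n => Set.mem_iInter.1 hy n⟩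

/-- extension of conditions -/
def Ext (k : ℕ) (s g : ℕ → ℕ) (k' : ℕ) (s' g' : ℕ → ℕ) : Prop :=
  k ≤ k' ∧ (∀ n, n < k → s' n = s n) ∧ (∀ n, k ≤ n → n < k' → g n ≤ s' n) ∧ ∀ n, g n ≤ g' n

theorem Ext.box {k : ℕ} {s g : ℕ → ℕ} {k' : ℕ} {s' g' : ℕ → ℕ} (h : Ext k s g k' s' g') :
    Box k' s' g' ⊆ Box k s g := by
  rintro f ⟨h1, h2⟩
  refine ⟨fun n hn => (h1 n (lt_of_lt_of_le hn h.1)).trans (h.2.1 n hn), fun n hn => ?_⟩
  by_cases hn' : n < k'
  · rw [h1 n hn']
    exact h.2.2.1 n hn hn'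
  · exact (h.2.2.2 n).trans (h2 n (not_lt.1 hn'))

theorem Ext.trans {k : ℕ} {s g : ℕ → ℕ} {k' : ℕ} {s' g' : ℕ → ℕ} {k'' : ℕ} {s'' g'' : ℕ → ℕ}
    (h : Ext k s g k' s' g') (h' : Ext k' s' g' k'' s'' g'') : Ext k s g k'' s'' g'' := by
  refine ⟨h.1.trans h'.1, fun n hn => ?_, fun n h1 h2 => ?_, fun n => (h.2.2.2 n).trans (h'.2.2.2 n)⟩
  · rw [h'.2.1 n (lt_of_lt_of_le hn h.1), h.2.1 n hn]
  · by_cases hn' : n < k'
    · rw [h'.2.1 n hn']
      exact h.2.2.1 n h1 hn'
    · exact (h.2.2.2 n).trans (h'.2.2.1 n (not_lt.1 hn') h2)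

/-- If the program `c` is not excluded by an extension of the condition, then `cand` is in `Q`. -/
theorem cand_mem {Q : Set (ℕ → Bool)} (hQ : IsClosed Q) {c : Code} {k : ℕ} {s g : ℕ → ℕ}
    (hno : ∀ (k' : ℕ) (s' g' : ℕ → ℕ), Ext k s g k' s' g' →
      ∃ f ∈ Box k' s' g', ∃ y ∈ Q, Red c f (bt y)) :
    cand c (pre s k) ∈ Q := by
  classical
  -- the favoured values
  have hfav : ∀ n, ∃ y, Fav c k s n y := by
    intro n
    by_contra hcon
    have hcon' : ∀ y : ℕ → Bool, ∃ g' : ℕ → ℕ, ∀ f ∈ Box k s g', ¬ Out c f n y := by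
      intro y
      by_contra h1
      apply hcon
      refine ⟨y, fun g' => ?_⟩
      by_contra h2
      apply h1
      refine ⟨g', fun f hf ho => h2 ⟨f, hf, ho⟩⟩
    choose G hG using hcon'
    let e : (Fin n → Bool) → (ℕ → Bool) := fun u m => if hm : m < n then u ⟨m, hm⟩ else false
    let g' : ℕ → ℕ := fun m => max (g m) ((Finset.univ : Finset (Fin n → Bool)).sup fun u => G (e u) m)
    obtain ⟨f, hf, y, hy, hr⟩ := hno k s g' ⟨le_refl _, fun _ _ => rfl,
      fun m h1 h2 => absurd h2 (not_lt.2 h1), fun m => le_max_left _ _⟩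
    have ho : Out c f n (e fun i => y i) :=
      (Out.of_red hr n).congr (fun m hm => by simp [e, hm])
    refine hG (e fun i => y i) f ⟨hf.1, fun m hm => le_trans ?_ (hf.2 m hm)⟩ ho
    refine le_trans ?_ (le_max_right _ _)
    exact Finset.le_sup (f := fun u => G (e u) m) (Finset.mem_univ (fun i : Fin n => y i))
  obtain ⟨y0, hy0⟩ := exists_path hfav
  have hc := cand_spec (c := c) (l := pre s k)
    ⟨y0, fun n => by
      rw [length_pre]
      exact (hy0 n).stem (fun m hm => (ofL_pre s k m hm).symm)⟩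
  rw [length_pre] at hc
  have hc' : ∀ n, Fav c k s n (cand c (pre s k)) := fun n =>
    (hc n).stem (fun m hm => ofL_pre s k m hm)
  -- favoured values are initial segments of elements of `Q`
  rw [← hQ.closure_eq]
  rw [mem_closure_iff_nhds]
  intro U hU
  -- a basic neighbourhood
  obtain ⟨n, hn⟩ : ∃ n, ∀ z : ℕ → Bool, (∀ m, m < n → z m = cand c (pre s k) m) → z ∈ U := by
    rw [nhds_pi, Filter.mem_pi] at hU
    obtain ⟨I, hI, t, ht, hsub⟩ := hU
    obtain ⟨N, hN⟩ := hI.bddAbove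
    refine ⟨N + 1, fun z hz => hsub ?_⟩
    intro i hi
    rw [hz i (Nat.lt_succ_of_le (hN hi))]
    exact mem_of_mem_nhds (ht i)
  obtain ⟨f, hf, ho⟩ := hc' n g
  obtain ⟨K, hK⟩ := ho.use
  obtain ⟨f', hf', y, hy, hr⟩ := hno (max k K) f g ⟨le_max_left _ _, hf.1,
    fun m h1 _ => hf.2 m h1, fun m => le_refl _⟩
  refine ⟨y, hn y ?_, hy⟩
  have ho' : Out c f' n (cand c (pre s k)) :=
    hK f' (fun m hm => hf'.1 m (lt_of_lt_of_le hm (le_max_right _ _)))
  intro m hm
  exact (Out.eq_of_red hr ho' m hm).symm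

/-- conditions -/
structure Cond where
  k : ℕ
  s : ℕ → ℕ
  g : ℕ → ℕ

/-- If all the elements of `Box 0 s h` compute an element of `Q` then `Q` has an element in `C`. -/
theorem exists_cand {Q : Set (ℕ → Bool)} (hQ : IsClosed Q) {h : ℕ → ℕ}
    (hP : ∀ f : ℕ → ℕ, (∀ n, h n ≤ f n) → ∃ y ∈ Q, LeT (bt y) f) :
    ∃ (c : Code) (l : List ℕ), cand c l ∈ Q := by
  by_contra hcon
  -- every program can be excluded
  have step : ∀ (e : ℕ) (p : Cond), ∃ p' : Cond, Ext p.k p.s p.g p'.k p'.s p'.g ∧ p.k < p'.k ∧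
      ∀ f ∈ Box p'.k p'.s p'.g, ∀ y ∈ Q, ¬ Red (Denumerable.ofNat Code e) f (bt y) := by
    intro e p
    by_contra h1
    apply hcon
    refine ⟨Denumerable.ofNat Code e, pre p.s p.k, cand_mem (g := p.g) hQ ?_⟩
    intro k' s' g' hE
    by_contra h2
    apply h1
    -- lengthen the stem
    refine ⟨⟨k' + 1, fun n => if n < k' then s' n else g' n, g'⟩, ?_, ?_, ?_⟩
    · refine hE.trans ⟨Nat.le_succ _, fun n hn => by simp [hn], fun n h3 h4 => ?_, fun n => le_refl _⟩
      simp [not_lt.2 h3]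
    · exact Nat.lt_succ_of_le hE.1
    · intro f hf y hy hr
      apply h2
      refine ⟨f, ⟨fun n hn => ?_, fun n hn => ?_⟩, y, hy, hr⟩
      · rw [hf.1 n (Nat.lt_succ_of_lt hn)]
        simp [hn]
      · rcases Nat.lt_or_ge n (k' + 1) with h3 | h3
        · rw [hf.1 n h3]
          simp [not_lt.2 hn]
        · exact hf.2 n h3
  choose nx hnx using step
  let sq : ℕ → Cond := fun e => Nat.rec ⟨0, h, h⟩ (fun e p => nx e p) e
  have hsq : ∀ e, sq (e + 1) = nx e (sq e) := fun e => rfl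
  have hlen : ∀ e, e ≤ (sq e).k := by
    intro e
    induction e with
    | zero => exact Nat.zero_le _
    | succ e ih =>
      rw [hsq]
      exact Nat.succ_le_of_lt (lt_of_le_of_lt ih (hnx e (sq e)).2.1)
  have hext : ∀ e d, Ext (sq e).k (sq e).s (sq e).g (sq (e + d)).k (sq (e + d)).s (sq (e + d)).g := by
    intro e d
    induction d with
    | zero => exact ⟨le_refl _, fun _ _ => rfl, fun n h1 h2 => absurd h2 (not_lt.2 h1),
        fun n => le_refl _⟩
    | succ d ih => exact ih.trans (by rw [← add_assoc, hsq]; exact (hnx (e + d) (sq (e + d))).1)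
  let f : ℕ → ℕ := fun n => (sq (n + 1)).s n
  have hf : ∀ e, f ∈ Box (sq e).k (sq e).s (sq e).g := by
    intro e
    have agree : ∀ a b n, a ≤ b → n < (sq a).k → (sq b).s n = (sq a).s n := by
      intro a b n hab hn
      obtain ⟨d, rfl⟩ := Nat.exists_eq_add_of_le hab
      exact (hext a d).2.1 n hn
    refine ⟨fun n hn => ?_, fun n hn => ?_⟩
    · rcases le_total e (n + 1) with h1 | h1
      · exact agree e (n + 1) n h1 hn
      · exact (agree (n + 1) e n h1 (hlen (n + 1))).symm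
    · have h1 : e ≤ n + 1 := by
        have := hlen e
        omega
      obtain ⟨d, hd⟩ := Nat.exists_eq_add_of_le h1
      have := (hext e d).2.2.1 n hn (by
        rw [← hd]
        exact hlen (n + 1))
      rw [← hd] at this
      exact this
  obtain ⟨y, hy, hle⟩ := hP f (fun n => (hf 0).2 n (Nat.zero_le _))
  obtain ⟨c, hc⟩ := exists_red hle
  have := (hnx (encode c) (sq (encode c))).2.2 f (hf (encode c + 1)) y hy
  rw [Denumerable.ofNat_encode] at this
  exact this hc

open Classical in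
/-- the countably many functions computable from elements of `C` -/
noncomputable def fam (i : Code × List ℕ × Code) : ℕ → ℕ :=
  if h : ∃ f : ℕ → ℕ, Red i.2.2 (bt (cand i.1 i.2.1)) f then Classical.choose h else fun _ => 0

theorem fam_eq {c : Code} {l : List ℕ} {f : ℕ → ℕ} (h : LeT f (bt (cand c l))) :
    ∃ i, fam i = f := by
  obtain ⟨d, hd⟩ := exists_red h
  refine ⟨(c, l, d), ?_⟩
  unfold fam
  have hex : ∃ f : ℕ → ℕ, Red d (bt (cand c l)) f := ⟨f, hd⟩
  rw [dif_pos hex]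
  exact Red.unique (Classical.choose_spec hex) hd

/-- **Main result**: there is a closed subset of Baire space which is not Muchnik equivalent to a
closed subset of Cantor space. -/
theorem main : ∃ P : Set (ℕ → ℕ), IsClosed P ∧ ∀ Q : Set (ℕ → Bool), IsClosed Q →
    ¬ ((∀ x ∈ P, ∃ y ∈ Q, LeT (bt y) x) ∧ (∀ y ∈ Q, ∃ x ∈ P, LeT x (bt y))) := by
  obtain ⟨F, hF⟩ : ∃ F : ℕ → (ℕ → ℕ), ∀ i, ∃ n, F n = fam i :=
    ⟨fun n => fam (Denumerable.ofNat (Code × List ℕ × Code) n), fun i =>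
      ⟨encode i, congrArg fam (Denumerable.ofNat_encode i)⟩⟩
  refine ⟨{f | ∀ n, F n n + 1 ≤ f n}, ?_, ?_⟩
  · rw [Set.ofPred_forall]
    refine isClosed_iInter fun n => ?_
    exact isClosed_le continuous_const (continuous_apply n)
  · rintro Q hQ ⟨h1, h2⟩
    obtain ⟨c, l, hcl⟩ := exists_cand (h := fun n => F n n + 1) hQ h1
    obtain ⟨x, hx, hle⟩ := h2 _ hcl
    obtain ⟨i, hi⟩ := fam_eq hle
    obtain ⟨n, hn⟩ := hF i
    have := hx n
    rw [hn, hi] at this
    omega

end Pool.Agent.L7h72.Muchnik
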